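import Pool.Agent.N463.MI.Stm

/-!
Project MI (helper463), part C01r (helper771): the tail of the series.
-/

noncomputable section

namespace Pool.Agent.N771.MI.C01r

open Finset Pool.Agent.N463.MI

/-- the majorant -/
def f (t : ℝ) (j : ℕ) : ℝ := 3.001 / t * (1 / ((j : ℝ) + 79) ^ 2)

theorem f_nonneg {t : ℝ} (ht : 0 < t) (j : ℕ) : 0 ≤ f t j := by
  unfold f
  positivity

theorem sum_f {t : ℝ} (ht : 0 < t) (n : ℕ) :
    ∑ j ∈ range n, f t j ≤ 3.001 / t * (1 / 78 - 1 / ((n : ℝ) + 78)) := by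
  induction n with
  | zero => simp
  | succ n ih =>
    rw [sum_range_succ]
    have h0 : (0 : ℝ) ≤ n := Nat.cast_nonneg n
    have h1 : 1 / ((n : ℝ) + 79) ^ 2 ≤ 1 / ((n : ℝ) + 78) - 1 / (((n + 1 : ℕ) : ℝ) + 78) := by
      push_cast
      rw [div_sub_div _ _ (by positivity) (by positivity), div_le_div_iff₀ (by positivity)
        (by positivity)]
      nlinarith
    have h2 : 0 < 3.001 / t := by positivity
    have h3 : f t n ≤ 3.001 / t * (1 / ((n : ℝ) + 78) - 1 / (((n + 1 : ℕ) : ℝ) + 78)) := by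
      unfold f
      exact mul_le_mul_of_nonneg_left h1 h2.le
    calc _ ≤ 3.001 / t * (1 / 78 - 1 / ((n : ℝ) + 78)) +
        3.001 / t * (1 / ((n : ℝ) + 78) - 1 / (((n + 1 : ℕ) : ℝ) + 78)) := add_le_add ih h3
      _ = _ := by ring

theorem sum_f' {t : ℝ} (ht : 0 < t) (n : ℕ) : ∑ j ∈ range n, f t j ≤ 0.0386 / t := by
  refine (sum_f ht n).trans ?_
  have h0 : (0 : ℝ) ≤ n := Nat.cast_nonneg n
  have h1 : 0 ≤ 1 / ((n : ℝ) + 78) := by positivity
  have h2 : 0 < 1 / t := by positivity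
  calc 3.001 / t * (1 / 78 - 1 / ((n : ℝ) + 78)) = 1 / t * (3.001 * (1 / 78 - 1 / ((n : ℝ) + 78))) := by
        ring
    _ ≤ 1 / t * 0.0386 := by
        refine mul_le_mul_of_nonneg_left ?_ h2.le
        generalize 1 / ((n : ℝ) + 78) = w at h1 ⊢
        norm_num
        linarith
    _ = _ := by ring

theorem cf_bound {a : ℝ} (ha : 2 ≤ a) (ψ : ℝ) (j : ℕ) : |cf a ψ (j + 78)| ≤ 3.001 := by
  unfold cf
  rw [abs_mul, abs_pow, abs_neg, abs_one, one_pow, one_mul]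
  have h1 : |2 * Real.cos ((j + 78 + 1 : ℕ) * ψ)| ≤ 2 := by
    rw [abs_mul, abs_of_pos (by norm_num : (0 : ℝ) < 2)]
    have := Real.abs_cos_le_one ((j + 78 + 1 : ℕ) * ψ)
    linarith
  have ha0 : 0 ≤ a⁻¹ := by positivity
  have ha1 : a⁻¹ ≤ 1 / 2 := by
    rw [inv_eq_one_div]
    exact one_div_le_one_div_of_le (by norm_num) ha
  have h2 : (a⁻¹) ^ (j + 78 + 1) ≤ 0.001 := by
    calc (a⁻¹) ^ (j + 78 + 1) ≤ (1 / 2) ^ (j + 78 + 1) := pow_le_pow_left₀ ha0 ha1 _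
      _ ≤ (1 / 2 : ℝ) ^ 10 := pow_le_pow_of_le_one (by norm_num) (by norm_num) (by omega)
      _ ≤ 0.001 := by norm_num
  have h3 : 0 ≤ (a⁻¹) ^ (j + 78 + 1) := by positivity
  obtain ⟨h4, h5⟩ := abs_le.1 h1
  generalize (a⁻¹) ^ (j + 78 + 1) = u at h2 h3 ⊢
  generalize 2 * Real.cos ((j + 78 + 1 : ℕ) * ψ) = w at h4 h5 ⊢
  rw [abs_le]
  norm_num at h2 ⊢
  constructor <;> linarith

/-- **C01r** -/
theorem t_C01r (h2 : B02) : Pool.Agent.N463.MI.C01r := by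
  intro a K θ t hA ht
  have ha : 2 ≤ a := by
    rcases hA with h | h
    · rw [h.1]
    · rw [h.1]; norm_num
  have hK : 0 < (K : ℝ) := by
    have : 0 < K := by rcases hA with h | h <;> omega
    exact_mod_cast this
  have ht0 : 0 < t := by
    rw [ht]
    exact div_pos (Real.log_pos (by linarith)) hK
  have hb : ∀ j : ℕ, |cf a (K * θ) (j + 78) / ((j + 78 : ℕ) + 1) *
      ((kr ((j + 78 + 1 : ℕ) * t) ((j + 78 + 1 : ℕ) * θ) - 1) / 2)| ≤ f t j := by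
    intro j
    have h0 : (0 : ℝ) ≤ j := Nat.cast_nonneg j
    have hm : (0 : ℝ) < (j : ℝ) + 79 := by positivity
    have e1 : (((j + 78 : ℕ) : ℝ) + 1) = (j : ℝ) + 79 := by push_cast; ring
    have e2 : ((j + 78 + 1 : ℕ) : ℝ) = (j : ℝ) + 79 := by push_cast; ring
    rw [e1, abs_mul, abs_div, abs_div, abs_of_pos hm, abs_of_pos (by norm_num : (0 : ℝ) < 2)]
    have h3 := (h2 (((j + 78 + 1 : ℕ) : ℝ) * t) (((j + 78 + 1 : ℕ) : ℝ) * θ)
      (by rw [e2]; positivity)).1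
    have h4 := cf_bound ha (K * θ) j
    calc |cf a (K * θ) (j + 78)| / ((j : ℝ) + 79) *
        (|kr (((j + 78 + 1 : ℕ) : ℝ) * t) (((j + 78 + 1 : ℕ) : ℝ) * θ) - 1| / 2) ≤
        3.001 / ((j : ℝ) + 79) * (2 / (((j + 78 + 1 : ℕ) : ℝ) * t) / 2) := by gcongr
      _ = f t j := by
        rw [e2]
        unfold f
        field_simp
  have hs : Summable (f t) := summable_of_sum_range_le (f_nonneg ht0) (sum_f' ht0)
  have hs2 : Summable fun j : ℕ => cf a (K * θ) (j + 78) / ((j + 78 : ℕ) + 1) *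
      ((kr ((j + 78 + 1 : ℕ) * t) ((j + 78 + 1 : ℕ) * θ) - 1) / 2) :=
    Summable.of_norm_bounded hs hb
  calc _ ≤ ∑' j, f t j := hs2.tsum_le_tsum (fun j => (le_abs_self _).trans (hb j)) hs
    _ ≤ 0.0386 / t := Real.tsum_le_of_sum_range_le (f_nonneg ht0) (sum_f' ht0)

end Pool.Agent.N771.MI.C01r
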